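import Pool.Agent.H11.NY.Targets

/-! # Module FL of the board ny_modules (helper67), for MP_9b2842_al -/

set_option autoImplicit false

namespace Pool.Agent.H67.NY.FL

open Equiv (Perm)
open Pool.Agent.H11.NY

/-- two indices among four are not enough to be avoided -/
theorem avoid2 (q : Fin 4 → ℕ) (hq : Function.Injective q) (r l : ℕ) :
    ∃ i, q i ≠ r ∧ q i ≠ l := by
  by_contra hcon
  push Not at hcon
  have h : ∀ i, q i = r ∨ q i = l := fun i => by
    by_cases h1 : q i = r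
    · exact Or.inl h1
    · exact Or.inr (hcon i h1)
  have h01 : q 0 ≠ q 1 := fun h => absurd (hq h) (by decide)
  have h02 : q 0 ≠ q 2 := fun h => absurd (hq h) (by decide)
  have h12 : q 1 ≠ q 2 := fun h => absurd (hq h) (by decide)
  have a0 := h 0
  have a1 := h 1
  have a2 := h 2
  omega

theorem avoid3 (q p : Fin 4 → ℕ) (hq : Function.Injective q) (hp : Function.Injective p)
    (r l : ℕ) : ∃ i, q i ≠ r ∧ q i ≠ l ∧ p i ≠ l := by
  by_contra hcon
  push Not at hcon
  have h : ∀ i, q i = r ∨ q i = l ∨ p i = l := fun i => by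
    by_cases h1 : q i = r
    · exact Or.inl h1
    · by_cases h2 : q i = l
      · exact Or.inr (Or.inl h2)
      · exact Or.inr (Or.inr (hcon i h1 h2))
  have h01 : q 0 ≠ q 1 := fun h => absurd (hq h) (by decide)
  have h02 : q 0 ≠ q 2 := fun h => absurd (hq h) (by decide)
  have h03 : q 0 ≠ q 3 := fun h => absurd (hq h) (by decide)
  have h12 : q 1 ≠ q 2 := fun h => absurd (hq h) (by decide)
  have h13 : q 1 ≠ q 3 := fun h => absurd (hq h) (by decide)
  have h23 : q 2 ≠ q 3 := fun h => absurd (hq h) (by decide)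
  have g01 : p 0 ≠ p 1 := fun h => absurd (hp h) (by decide)
  have g02 : p 0 ≠ p 2 := fun h => absurd (hp h) (by decide)
  have g03 : p 0 ≠ p 3 := fun h => absurd (hp h) (by decide)
  have g12 : p 1 ≠ p 2 := fun h => absurd (hp h) (by decide)
  have g13 : p 1 ≠ p 3 := fun h => absurd (hp h) (by decide)
  have g23 : p 2 ≠ p 3 := fun h => absurd (hp h) (by decide)
  have a0 := h 0
  have a1 := h 1
  have a2 := h 2
  have a3 := h 3
  omega

theorem exists_prime_order {L : Type} [Group L] [Finite L] (K : Subgroup L) (u : ℕ)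
    (hu : u.Prime) (hd : u ∣ Nat.card K) : ∃ x ∈ K, x ≠ 1 ∧ orderOf x = u := by
  have : Fact u.Prime := ⟨hu⟩
  obtain ⟨x, hx⟩ := exists_prime_orderOf_dvd_card' u hd
  refine ⟨x, x.2, ?_, ?_⟩
  · intro h
    have h1 : x = 1 := Subtype.ext h
    rw [h1, orderOf_one] at hx
    exact hu.one_lt.ne hx
  · rw [← hx, Subgroup.orderOf_coe]

theorem pf_fl (hFL1 : T_FL1) (hOP : T_OP) (hI4 : T_I4) : T_FL := by
  intro e c
  obtain ⟨B, hB⟩ := hFL1 e
  refine ⟨B, ?_⟩
  intro L Ω _ _ _ _ ψ π d hψ hperf hder q p a h P hpair hqπ hqinj hPa hPn hPp hhP hopt g ℓ hℓ hℓπ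
    hpℓ hg hc hec hsupp S hSn hSs
  -- the `π`-part
  obtain ⟨Y, hY⟩ : ∃ Y : Subgroup L, Y = (derivedSeries ψ.ker d).map ψ.ker.subtype := ⟨_, rfl⟩
  have hYn : Y.Normal := by
    rw [hY]
    have : (derivedSeries ψ.ker d).Characteristic := inferInstance
    infer_instance
  have hYk : Y ≤ ψ.ker := by
    rw [hY]
    exact Subgroup.map_subtype_le _
  have hYcard : Nat.card Y = Nat.card (derivedSeries ψ.ker d) := by
    rw [hY]
    exact Nat.card_congr ((derivedSeries ψ.ker d).equivMapOfInjective _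
      (Subgroup.subtype_injective _)).symm.toEquiv
  have hYπ : ∀ r : ℕ, r.Prime → r ∣ Nat.card Y → r ∈ π := by
    intro r hr hrd
    rw [hYcard] at hrd
    exact hder r hr hrd
  rcases hopt with ⟨p₀, hp₀⟩ | hpinj
  · -- first option
    have hp₀p : p₀.Prime := by
      have h1 := (hpair 0).2.2.2.1
      rw [(hp₀ 0).1] at h1
      exact h1
    obtain ⟨K₀, hK₀n, hYK, hKk, hKp, hKmax⟩ := hOP L p₀ ψ.ker Y hp₀p inferInstance hYn hYk
    have hprime : ∀ u : ℕ, u.Prime → u ∣ Nat.card K₀ → u ∈ π ∨ u = p₀ := by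
      intro u hu hud
      obtain ⟨x, hx, hx1, hxo⟩ := exists_prime_order K₀ u hu hud
      by_cases hup : u = p₀
      · exact Or.inr hup
      · left
        obtain ⟨k, hk⟩ := hKp x hx
        apply hYπ u hu
        have hcop : Nat.Coprime (p₀ ^ k) (orderOf x) := by
          rw [hxo]
          exact Nat.Coprime.pow_left _ ((Nat.coprime_primes hp₀p hu).2 (Ne.symm hup))
        have h1 : orderOf (x ^ (p₀ ^ k)) = u := by
          rw [Nat.Coprime.orderOf_pow hcop.symm, hxo]
        have h2 : orderOf (⟨x ^ (p₀ ^ k), hk⟩ : Y) = u := by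
          rw [← Subgroup.orderOf_coe, h1]
        rw [← h2]
        exact orderOf_dvd_natCard _
    have hqK : ∀ i, ¬ q i ∣ Nat.card K₀ := by
      intro i hdvd
      rcases hprime (q i) (hpair i).1 hdvd with h1 | h1
      · exact hqπ i h1
      · exact (hp₀ i).2 h1
    have hℓK : ¬ ℓ ∣ Nat.card K₀ := by
      intro hdvd
      rcases hprime ℓ hℓ hdvd with h1 | h1
      · exact hℓπ h1
      · exact hpℓ 0 (by rw [(hp₀ 0).1, h1])
    have hloc : LocGrp ψ e K₀ := by
      refine hB L Ω ψ hψ hperf K₀ hK₀n hKk ⟨d, by rw [← hY]; exact hYK⟩ q p a h P hpair hqK hPa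
        hPn hPp hhP ?_
      intro l' hl' A hAn hKA hAk hAp r hr
      have hl'p : l' ≠ p₀ := by
        rintro rfl
        have := hKmax A hAn hKA.le hAk hAp
        exact hKA.ne this.symm
      obtain ⟨i, h1, h2⟩ := avoid2 q hqinj r l'
      exact ⟨i, h1, h2, by rw [(hp₀ i).1]; exact hl'p.symm⟩
    exact hI4 L Ω ψ hψ K₀ hK₀n hKk ℓ e c hℓ hℓK hloc hc hec g hg hsupp S hSn hSs
  · -- second option
    have hqK : ∀ i, ¬ q i ∣ Nat.card Y := fun i hdvd => hqπ i (hYπ _ (hpair i).1 hdvd)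
    have hℓK : ¬ ℓ ∣ Nat.card Y := fun hdvd => hℓπ (hYπ ℓ hℓ hdvd)
    have hloc : LocGrp ψ e Y := by
      refine hB L Ω ψ hψ hperf Y hYn hYk ⟨d, by rw [← hY]⟩ q p a h P hpair hqK hPa
        hPn hPp hhP ?_
      intro l' hl' A hAn hKA hAk hAp r hr
      exact avoid3 q p hqinj hpinj r l'
    exact hI4 L Ω ψ hψ Y hYn hYk ℓ e c hℓ hℓK hloc hc hec g hg hsupp S hSn hSs

end Pool.Agent.H67.NY.FL
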