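import Pool.Agent.H11.NY.Targets

/-! # Module GW of the board ny_modules (helper67), for MP_9b2842_al -/

set_option autoImplicit false

namespace Pool.Agent.H67.NY.GW

open Pool.Agent.H11.NY

section pow

variable {Γ : Type} [Group Γ]

theorem pow_swap (y z c : Γ) (hc : ∀ w, c * w = w * c) (h : z * y = c * (y * z)) (n : ℕ) :
    z ^ n * y = c ^ n * (y * z ^ n) := by
  have hcn : ∀ n : ℕ, ∀ w, c ^ n * w = w * c ^ n := fun n w =>
    (Commute.pow_left (hc w : Commute c w) n)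
  induction n with
  | zero => simp
  | succ n ih =>
    calc z ^ (n + 1) * y = z ^ n * (z * y) := by rw [pow_succ, mul_assoc]
      _ = c * (z ^ n * y) * z := by
        rw [h, ← mul_assoc (z ^ n) c, ← hc (z ^ n)]
        simp only [mul_assoc]
      _ = c * (c ^ n * (y * z ^ n)) * z := by rw [ih]
      _ = c ^ (n + 1) * (y * z ^ (n + 1)) := by
        rw [pow_succ' c n, pow_succ z n]
        simp only [mul_assoc]

theorem mul_pow_exists (y z c : Γ) (hc : ∀ w, c * w = w * c) (h : z * y = c * (y * z)) (n : ℕ) :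
    ∃ m : ℕ, (y * z) ^ n = c ^ m * (y ^ n * z ^ n) := by
  have hcn : ∀ n : ℕ, ∀ w, c ^ n * w = w * c ^ n := fun n w =>
    (Commute.pow_left (hc w : Commute c w) n)
  induction n with
  | zero => exact ⟨0, by simp⟩
  | succ n ih =>
    obtain ⟨m, hm⟩ := ih
    refine ⟨m + n, ?_⟩
    calc (y * z) ^ (n + 1) = c ^ m * (y ^ n * z ^ n) * (y * z) := by rw [pow_succ, hm]
      _ = c ^ m * (y ^ n * ((z ^ n * y) * z)) := by simp only [mul_assoc]
      _ = c ^ m * (y ^ n * ((c ^ n * (y * z ^ n)) * z)) := by rw [pow_swap y z c hc h n]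
      _ = c ^ m * (c ^ n * y ^ n * ((y * z ^ n) * z)) := by
        rw [hcn n (y ^ n)]
        simp only [mul_assoc]
      _ = c ^ (m + n) * (y ^ (n + 1) * z ^ (n + 1)) := by
        rw [pow_add, pow_succ y n, pow_succ z n]
        simp only [mul_assoc]

theorem pow_mul_one (p : ℕ) (y z c : Γ) (hc : ∀ w, c * w = w * c) (h : z * y = c * (y * z))
    (hy : ∃ k : ℕ, y ^ (p ^ k) = 1) (hz : ∃ k : ℕ, z ^ (p ^ k) = 1) :
    ∃ k : ℕ, (y * z) ^ (p ^ k) = 1 := by
  obtain ⟨k, hk⟩ := hy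
  obtain ⟨l, hl⟩ := hz
  have hcl : c ^ (p ^ l) = 1 := by
    have h1 := pow_swap y z c hc h (p ^ l)
    rw [hl, one_mul, mul_one] at h1
    exact (mul_eq_right.1 h1.symm)
  obtain ⟨m, hm⟩ := mul_pow_exists y z c hc h (p ^ (k + l))
  refine ⟨k + l + l, ?_⟩
  have e1 : y ^ (p ^ (k + l)) = 1 := by rw [pow_add, pow_mul, hk, one_pow]
  have e2 : z ^ (p ^ (k + l)) = 1 := by rw [pow_add, mul_comm, pow_mul, hl, one_pow]
  rw [pow_add p (k + l) l, pow_mul, hm, e1, e2, mul_one, mul_one, ← pow_mul, mul_comm m, pow_mul,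
    hcl, one_pow]

end pow

/-- the `p`-part of a normal subgroup whose commutators are central -/
def PP {Γ : Type} [Group Γ] (D : Subgroup Γ) (hD : ∀ y ∈ D, ∀ z ∈ D, ∀ w : Γ,
    (z * y * z⁻¹ * y⁻¹) * w = w * (z * y * z⁻¹ * y⁻¹)) (p : ℕ) : Subgroup Γ where
  carrier := {y | y ∈ D ∧ ∃ k : ℕ, y ^ (p ^ k) = 1}
  mul_mem' := by
    rintro y z ⟨hy, hyk⟩ ⟨hz, hzk⟩
    exact ⟨D.mul_mem hy hz, pow_mul_one p y z (z * y * z⁻¹ * y⁻¹) (hD y hy z hz) (by group)
      hyk hzk⟩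
  one_mem' := ⟨D.one_mem, 0, by simp⟩
  inv_mem' := by
    rintro y ⟨hy, k, hk⟩
    exact ⟨D.inv_mem hy, k, by rw [inv_pow, hk, inv_one]⟩

theorem inner {Γ : Type} [Group Γ] (q : ℕ) (a : Γ) (hq : q.Prime) (haq : a ^ q = 1) (ha : a ≠ 1)
    (hac : ∀ w : Γ, a * w = w * a) (hfin : ∀ x : Γ, ∃ k : ℕ, 0 < k ∧ x ^ k = 1)
    (H : Subgroup Γ) (hH : H.index ≠ 0) (hHs : Group.IsSolvable H) (hinf : Infinite Γ) :
    ∃ (p : ℕ) (h : Γ) (P : Subgroup Γ), p.Prime ∧ P.Normal ∧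
      (∀ x ∈ P, ∃ k : ℕ, x ^ (p ^ k) = 1) ∧ h ∈ P ∧ h ∉ Subgroup.zpowers a ∧
      (h ^ p = 1 ∨ (p = q ∧ h ^ q = a)) := by
  classical
  have hqf : Fact q.Prime := ⟨hq⟩
  have hao : orderOf a = q := orderOf_eq_prime haq ha
  obtain ⟨Z, hZ⟩ : ∃ Z : Subgroup Γ, Z = Subgroup.zpowers a := ⟨_, rfl⟩
  have hZc : ∀ z ∈ Z, ∀ w : Γ, z * w = w * z := by
    intro z hz w
    rw [hZ, Subgroup.mem_zpowers_iff] at hz
    obtain ⟨k, rfl⟩ := hz
    exact Commute.zpow_left (hac w : Commute a w) k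
  have hZq : ∀ z ∈ Z, z ^ q = 1 := by
    intro z hz
    rw [hZ, Subgroup.mem_zpowers_iff] at hz
    obtain ⟨k, rfl⟩ := hz
    rw [← zpow_natCast, ← zpow_mul, mul_comm, zpow_mul, zpow_natCast, haq, one_zpow]
  have hZfin : Finite Z := by
    rw [hZ]
    exact isOfFinOrder_iff_pow_eq_one.2 ⟨q, hq.pos, haq⟩ |>.finite_zpowers
  -- the normal core
  obtain ⟨S, hS⟩ : ∃ S : Subgroup Γ, S = H.normalCore := ⟨_, rfl⟩
  have hSn : S.Normal := by rw [hS]; exact H.normalCore_normal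
  have hSi : S.FiniteIndex := by
    rw [hS]
    have : H.FiniteIndex := ⟨hH⟩
    infer_instance
  have hSs : Group.IsSolvable S := by
    have h1 : S ≤ H := by rw [hS]; exact H.normalCore_le
    have := hHs
    exact Group.isSolvable_of_isSolvable_injective (Subgroup.inclusion_injective h1)
  have hSinf : Infinite S := by
    by_contra hnot
    rw [not_infinite_iff_finite] at hnot
    have h2 : Finite Γ := by
      have := hnot
      have := hSi
      have : Finite (Γ ⧸ S) := Subgroup.finite_quotient_of_finiteIndex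
      exact Finite.of_equiv _ (Subgroup.groupEquivQuotientProdSubgroup (s := S)).symm
    exact not_finite Γ
  obtain ⟨D, hD⟩ : ∃ D : ℕ → Subgroup Γ, D = fun j => (derivedSeries S j).map S.subtype :=
    ⟨_, rfl⟩
  have hDn : ∀ j, (D j).Normal := by
    intro j
    rw [hD]
    have : (derivedSeries S j).Characteristic := inferInstance
    infer_instance
  have hDs : ∀ j, D (j + 1) = ⁅D j, D j⁆ := by
    intro j
    rw [hD]
    simp only [derivedSeries_succ]
    rw [Subgroup.map_commutator]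
  have hex : ∃ j, D j ≤ Z := by
    obtain ⟨n, hn⟩ := hSs.solvable
    refine ⟨n, ?_⟩
    rw [hD]
    simp only [hn, Subgroup.map_bot]
    exact bot_le
  obtain ⟨m, hm⟩ : ∃ m, m = Nat.find hex := ⟨_, rfl⟩
  have hmZ : D m ≤ Z := by rw [hm]; exact Nat.find_spec hex
  have hm0 : m ≠ 0 := by
    intro h0
    rw [h0] at hmZ
    have h1 : D 0 = S := by
      rw [hD]
      simp only [derivedSeries_zero]
      rw [← MonoidHom.range_eq_map, Subgroup.range_subtype]
    rw [h1] at hmZ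
    have : Finite S := Finite.of_injective _ (Subgroup.inclusion_injective hmZ)
    exact not_finite S
  obtain ⟨j, rfl⟩ : ∃ j, m = j + 1 := ⟨m - 1, by omega⟩
  have hjZ : ¬ D j ≤ Z := Nat.find_min hex (by omega)
  have hcomm : ∀ y ∈ D j, ∀ z ∈ D j, ∀ w : Γ,
      (z * y * z⁻¹ * y⁻¹) * w = w * (z * y * z⁻¹ * y⁻¹) := by
    intro y hy z hz w
    apply hZc
    apply hmZ
    rw [hDs]
    have := Subgroup.commutator_mem_commutator hz hy
    exact this
  -- element of minimal order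
  have hne : ∃ r : ℕ, ∃ x : Γ, x ∈ D j ∧ x ∉ Z ∧ orderOf x = r := by
    obtain ⟨x, hx, hxZ⟩ := SetLike.not_le_iff_exists.1 hjZ
    exact ⟨_, x, hx, hxZ, rfl⟩
  obtain ⟨r, hr⟩ : ∃ r, r = Nat.find hne := ⟨_, rfl⟩
  obtain ⟨x, hx, hxZ, hxr⟩ : ∃ x : Γ, x ∈ D j ∧ x ∉ Z ∧ orderOf x = r := by
    rw [hr]; exact Nat.find_spec hne
  have hmin : ∀ y ∈ D j, orderOf y < r → y ∈ Z := by
    intro y hy hlt
    by_contra hyZ
    exact Nat.find_min hne (by rw [← hr]; exact hlt) ⟨y, hy, hyZ, rfl⟩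
  have hxfin : 0 < orderOf x := by
    rw [orderOf_pos_iff, isOfFinOrder_iff_pow_eq_one]
    exact hfin x
  have hr0 : 0 < r := hxr ▸ hxfin
  have hr1 : r ≠ 1 := by
    intro h1
    rw [h1, orderOf_eq_one_iff] at hxr
    rw [hxr] at hxZ
    exact hxZ Z.one_mem
  obtain ⟨p, hp, hpr⟩ := Nat.exists_prime_and_dvd hr1
  have hxp : x ^ p ∈ Z := by
    apply hmin _ ((D j).pow_mem hx p)
    rw [orderOf_pow_of_dvd hp.ne_zero (by rw [hxr]; exact hpr), hxr]
    exact Nat.div_lt_self hr0 hp.one_lt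
  have hPn : (PP (D j) hcomm p).Normal := by
    refine ⟨?_⟩
    rintro y ⟨hy, k, hk⟩ w
    refine ⟨(hDn j).conj_mem y hy w, k, ?_⟩
    rw [conj_pow, hk, mul_one, mul_inv_cancel]
  by_cases h1 : x ^ p = 1
  · exact ⟨p, x, PP (D j) hcomm p, hp, hPn, fun y hy => hy.2, ⟨hx, 1, by rw [pow_one]; exact h1⟩,
      by rw [← hZ]; exact hxZ, Or.inl h1⟩
  · -- `x ^ p` is a non-identity element of `Z`
    have hxpq : (x ^ p) ^ q = 1 := hZq _ hxp
    have hoxp : orderOf (x ^ p) = q := orderOf_eq_prime hxpq h1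
    have hrpq : r = p * q := by
      have h2 := orderOf_pow_of_dvd hp.ne_zero (by rw [hxr]; exact hpr : p ∣ orderOf x)
      rw [hoxp, hxr] at h2
      rw [h2, Nat.mul_div_cancel' hpr]
    have hpq : p = q := by
      by_contra hne'
      have h2 : x ^ q ∈ Z := by
        apply hmin _ ((D j).pow_mem hx q)
        rw [orderOf_pow_of_dvd hq.ne_zero (by rw [hxr, hrpq]; exact Dvd.intro_left p rfl), hxr,
          hrpq, Nat.mul_div_cancel _ hq.pos]
        nlinarith [hp.pos, hq.one_lt]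
      have hcop : Nat.Coprime p q := (Nat.coprime_primes hp hq).2 hne'
      apply hxZ
      have h3 := Nat.gcd_eq_gcd_ab p q
      rw [hcop.gcd_eq_one] at h3
      have h4 : x = (x ^ p) ^ (Nat.gcdA p q) * (x ^ q) ^ (Nat.gcdB p q) := by
        rw [← zpow_natCast x p, ← zpow_natCast x q, ← zpow_mul, ← zpow_mul, ← zpow_add, ← h3]
        simp
      rw [h4]
      exact Z.mul_mem (Z.zpow_mem hxp _) (Z.zpow_mem h2 _)
    subst hpq
    have h2 := hxp
    rw [hZ] at h2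
    have hfa : IsOfFinOrder a := isOfFinOrder_iff_pow_eq_one.2 ⟨p, hp.pos, haq⟩
    rw [hfa.mem_zpowers_iff_mem_range_orderOf, Finset.mem_image] at h2
    obtain ⟨i, hi, hia⟩ := h2
    rw [Finset.mem_range, hao] at hi
    have hi0 : i ≠ 0 := by
      rintro rfl
      rw [pow_zero] at hia
      exact h1 hia.symm
    have hcop : Nat.Coprime i p := Nat.Coprime.symm ((Nat.Prime.coprime_iff_not_dvd hp).2
      (fun hdvd => by
        have := Nat.le_of_dvd (Nat.pos_of_ne_zero hi0) hdvd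
        omega))
    obtain ⟨i', hi'⟩ : ∃ i' : ℕ, i * i' ≡ 1 [MOD p] := by
      obtain ⟨m', hm'⟩ := Nat.exists_mul_mod_eq_one_of_coprime hcop hp.one_lt
      refine ⟨m', ?_⟩
      unfold Nat.ModEq
      rw [hm'.2, Nat.mod_eq_of_lt hp.one_lt]
    have hfinal : (x ^ i') ^ p = a := by
      rw [← pow_mul, mul_comm, pow_mul, ← hia, ← pow_mul]
      have h5 : a ^ (i * i') = a ^ 1 := by
        rw [pow_eq_pow_iff_modEq, hao]
        exact hi'
      rw [h5, pow_one]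
    refine ⟨p, x ^ i', PP (D j) hcomm p, hp, hPn, fun y hy => hy.2,
      ⟨(D j).pow_mem hx i', 2, ?_⟩, ?_, Or.inr ⟨rfl, hfinal⟩⟩
    · rw [pow_two, pow_mul, hfinal, haq]
    · intro hmem
      rw [← hZ] at hmem
      have := hZq _ hmem
      rw [hfinal] at this
      exact ha this

theorem pf_gw : T_GW := by
  intro G _ q a hq haq ha hfin H hH hHs hinf
  obtain ⟨C, hC⟩ : ∃ C : Subgroup G, C = Subgroup.centralizer ({a} : Set G) := ⟨_, rfl⟩
  have hCm : ∀ x : G, x ∈ Subgroup.centralizer ({a} : Set G) ↔ a * x = x * a := by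
    intro x
    rw [Subgroup.mem_centralizer_iff]
    simp
  have haC : a ∈ Subgroup.centralizer ({a} : Set G) := (hCm a).2 rfl
  obtain ⟨p, h, P, hp, hPn, hPk, hhP, hhz, hor⟩ := inner q
    (⟨a, haC⟩ : Subgroup.centralizer ({a} : Set G)) hq (Subtype.ext haq)
    (fun h0 => ha (congrArg Subtype.val h0))
    (fun w => Subtype.ext ((hCm w).1 w.2))
    (fun x => by
      obtain ⟨k, hk, hxk⟩ := hfin x
      exact ⟨k, hk, Subtype.ext hxk⟩) H hH hHs hinf
  refine ⟨p, h, P.map (Subgroup.centralizer ({a} : Set G)).subtype, hp, haq, ha, ?_, ?_, ?_, ?_,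
    ?_, ?_⟩
  · rintro _ ⟨x, -, rfl⟩
    exact (hCm x).1 x.2
  · rintro x hx _ ⟨y, hy, rfl⟩
    exact ⟨(⟨x, (hCm x).2 hx⟩ : Subgroup.centralizer ({a} : Set G)) * y *
      (⟨x, (hCm x).2 hx⟩ : Subgroup.centralizer ({a} : Set G))⁻¹, hPn.conj_mem y hy _, rfl⟩
  · rintro _ ⟨x, hx, rfl⟩
    obtain ⟨k, hk⟩ := hPk x hx
    exact ⟨k, congrArg Subtype.val hk⟩
  · exact ⟨h, hhP, rfl⟩
  · intro hmem
    apply hhz
    rw [Subgroup.mem_zpowers_iff] at hmem ⊢
    obtain ⟨k, hk⟩ := hmem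
    exact ⟨k, Subtype.ext (by rw [← hk]; rfl)⟩
  · rcases hor with h1 | ⟨h1, h2⟩
    · exact Or.inl (congrArg Subtype.val h1)
    · exact Or.inr ⟨h1, congrArg Subtype.val h2⟩

end Pool.Agent.H67.NY.GW
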