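import Pool.Agent.H11.NY.Targets

/-! # Module I2 of the board ny_modules (helper67), for MP_9b2842_al -/

set_option autoImplicit false

namespace Pool.Agent.H67.NY.I2

open Pool.Agent.H11.NY

theorem perf_hom {H : Type} [Group H] (D : Subgroup H) (hD : ⁅D, D⁆ = D) {A : Type}
    [CommGroup A] (f : D →* A) (x : D) : f x = 1 := by
  have h1 := Subgroup.map_subtype_commutator D
  rw [hD] at h1
  have h2 : x ∈ commutator D := by
    have h3 : (x : H) ∈ (commutator D).map D.subtype := by rw [h1]; exact x.2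
    obtain ⟨y, hy, hyx⟩ := Subgroup.mem_map.1 h3
    have : y = x := Subtype.ext hyx
    rw [← this]; exact hy
  exact (Abelianization.commutator_subset_ker f) h2

theorem pf_i2 : T_I2 := by
  intro H _ V D D' hV hVc hD hD' hDD hcen d hd d' hd'
  let _ : CommGroup V := { V.toGroup with mul_comm := fun a b => Subtype.ext (hVc a a.2 b b.2) }
  obtain ⟨W, hW⟩ : ∃ W : Subgroup H, W = Subgroup.closure
    {w | ∃ d' ∈ D', ∃ v ∈ V, w = d' * v * d'⁻¹ * v⁻¹} := ⟨_, rfl⟩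
  have hgen : ∀ x ∈ D', ∀ v ∈ V, x * v * x⁻¹ * v⁻¹ ∈ W := by
    intro x hx v hv
    rw [hW]
    exact Subgroup.subset_closure ⟨x, hx, v, hv, rfl⟩
  have hWc : ∀ y ∈ D, ∀ w ∈ W, y * w * y⁻¹ = w := by
    intro y hy w hw
    have h1 : W ≤ Subgroup.centralizer {y} := by
      rw [hW, Subgroup.closure_le]
      rintro _ ⟨x, hx, v, hv, rfl⟩
      rw [SetLike.mem_coe, Subgroup.mem_centralizer_iff]
      intro z hz
      rw [Set.mem_singleton_iff] at hz
      rw [hz]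
      have := hcen y hy x hx v hv
      rw [mul_inv_eq_iff_eq_mul] at this
      exact this
    have h2 := Subgroup.mem_centralizer_iff.1 (h1 hw) y rfl
    rw [h2, mul_inv_cancel_right]
  -- first step
  have step1 : ∀ y ∈ D, ∀ x ∈ D', y * x * y⁻¹ * x⁻¹ ∈ W := by
    intro y hy x hx
    let f : D' →* V ⧸ (W.subgroupOf V) := MonoidHom.mk'
      (fun z => QuotientGroup.mk (⟨y * z * y⁻¹ * (z : H)⁻¹, hDD y hy z z.2⟩ : V)) (by
        intro a b
        rw [← QuotientGroup.mk_mul, QuotientGroup.eq, Subgroup.mem_subgroupOf]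
        have h1 := hgen a a.2 (y * b * y⁻¹ * (b : H)⁻¹)⁻¹ (V.inv_mem (hDD y hy b b.2))
        have h2 : (((⟨y * ((a * b : D') : H) * y⁻¹ * ((a * b : D') : H)⁻¹,
            hDD y hy (a * b : D') (a * b : D').2⟩ : V)⁻¹ *
            ((⟨y * a * y⁻¹ * (a : H)⁻¹, hDD y hy a a.2⟩ : V) *
              (⟨y * b * y⁻¹ * (b : H)⁻¹, hDD y hy b b.2⟩ : V)) : V) : H) =
            a * (y * b * y⁻¹ * (b : H)⁻¹)⁻¹ * (a : H)⁻¹ * ((y * b * y⁻¹ * (b : H)⁻¹)⁻¹)⁻¹ := by
          simp only [Subgroup.coe_mul, Subgroup.coe_inv]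
          group
        rw [h2]
        exact h1)
    have h1 := perf_hom D' hD' f ⟨x, hx⟩
    have h2 : (QuotientGroup.mk (⟨y * x * y⁻¹ * x⁻¹, hDD y hy x hx⟩ : V) : V ⧸ (W.subgroupOf V)) =
      1 := h1
    rw [QuotientGroup.eq_one_iff, Subgroup.mem_subgroupOf] at h2
    exact h2
  -- second step
  let g : D →* V := MonoidHom.mk' (fun z => (⟨z * d' * (z : H)⁻¹ * d'⁻¹, hDD z z.2 d' hd'⟩ : V)) (by
    intro a b
    apply Subtype.ext
    have h1 := hWc a a.2 (b * d' * (b : H)⁻¹ * d'⁻¹) (step1 b b.2 d' hd')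
    have h2 : ((a * b : D) : H) * d' * ((a * b : D) : H)⁻¹ * d'⁻¹ =
        (a * (b * d' * (b : H)⁻¹ * d'⁻¹) * (a : H)⁻¹) * (a * d' * (a : H)⁻¹ * d'⁻¹) := by
      simp only [Subgroup.coe_mul]
      group
    show ((a * b : D) : H) * d' * ((a * b : D) : H)⁻¹ * d'⁻¹ =
      (a * d' * (a : H)⁻¹ * d'⁻¹) * (b * d' * (b : H)⁻¹ * d'⁻¹)
    rw [h2, h1]
    exact hVc _ (hDD b b.2 d' hd') _ (hDD a a.2 d' hd'))
  have h1 := perf_hom D hD g ⟨d, hd⟩
  have h2 : d * d' * d⁻¹ * d'⁻¹ = 1 := congrArg Subtype.val h1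
  rw [mul_inv_eq_one, mul_inv_eq_iff_eq_mul] at h2
  exact h2

end Pool.Agent.H67.NY.I2
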